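import Mathlib

/-!
# Cell structures

`f` is a symmetric two-coloured relation on `V`. A cell structure is a cut `h` of `V` together with a
free action of a finite group `L` which preserves the cut and acts by automorphisms of `f`, even if it
acts on one half only, and such that the orbits are the classes of points of one half which are not
separated by the other half.
-/

set_option autoImplicit false

namespace Pool.Agent.BG

/-- A cell structure for the relation `f` with group `L`. -/
structure Cells {V : Type*} (f : V → V → Bool) (L : Type*) [AddCommGroup L] where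
  /-- the action -/
  act : L → V → V
  /-- the cut -/
  h : V → Bool
  act_zero : ∀ x, act 0 x = x
  act_add : ∀ u w x, act (u + w) x = act u (act w x)
  free : ∀ u x, act u x = x → u = 0
  hact : ∀ u x, h (act u x) = h x
  aut : ∀ u x y, f (act u x) (act u y) = f x y
  flat : ∀ u x y, h x ≠ h y → f (act u x) y = f x y
  sep : ∀ x y, h x = h y → (∀ u, act u x ≠ y) → ∃ z, h z ≠ h x ∧ f x z ≠ f y z

theorem bool_tri {a b c : Bool} (h1 : a ≠ c) (h2 : b ≠ c) : a = b := by
  revert a b c; decide

namespace Cells

variable {V : Type*} {f : V → V → Bool} {L L' : Type*} [AddCommGroup L] [AddCommGroup L']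

section One

variable (C : Cells f L)

theorem act_neg_act (u : L) (x : V) : C.act (-u) (C.act u x) = x := by
  rw [← C.act_add, neg_add_cancel, C.act_zero]

theorem act_act_neg (u : L) (x : V) : C.act u (C.act (-u) x) = x := by
  rw [← C.act_add, add_neg_cancel, C.act_zero]

theorem flat' (hf : ∀ x y, f x y = f y x) (u : L) {x y : V} (e : C.h x ≠ C.h y) :
    f x (C.act u y) = f x y := by
  rw [hf x (C.act u y), C.flat u y x (Ne.symm e), hf]

theorem aut_left (u : L) (x y : V) : f (C.act u x) y = f x (C.act (-u) y) := by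
  rw [← C.aut u x (C.act (-u) y), C.act_act_neg]

theorem act_inj (x : V) {u w : L} (e : C.act u x = C.act w x) : u = w := by
  have h1 : C.act (-w + u) x = x := by rw [C.act_add, e, C.act_neg_act]
  have h2 := C.free _ _ h1
  rw [neg_add_eq_zero] at h2
  exact h2.symm

end One

variable (C : Cells f L) (D : Cells f L')

/-- The `C`-orbit of `x` is split by the cut of `D`. -/
def split (x : V) : Prop := ∃ u, D.h (C.act u x) ≠ D.h x

variable {C D}

theorem split_act {x : V} (u : L) (hx : C.split D x) : C.split D (C.act u x) := by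
  obtain ⟨w, hw⟩ := hx
  by_contra hcon
  simp only [split, not_exists, not_not] at hcon
  have h1 := hcon (-u)
  rw [C.act_neg_act] at h1
  have h2 := hcon (w - u)
  rw [← C.act_add, sub_add_cancel] at h2
  exact hw (by rw [h2, h1])

theorem not_split_act {x : V} (u : L) (hx : ¬ C.split D x) : ¬ C.split D (C.act u x) := by
  intro h
  apply hx
  have := split_act (-u) h
  rwa [C.act_neg_act] at this

theorem h_of_not_split {x : V} (hx : ¬ C.split D x) (u : L) : D.h (C.act u x) = D.h x := by
  by_contra hne
  exact hx ⟨u, hne⟩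

/-- If the column of `x` is not contained in the row of `x`, then the row is not contained in the
column. -/
theorem exists_row [Finite L] [Finite L'] (hcard : Nat.card L = Nat.card L') {x : V} {s : L'}
    (hs : ∀ u, C.act u x ≠ D.act s x) : ∃ u, ∀ t, D.act t x ≠ C.act u x := by
  by_contra hcon
  push Not at hcon
  choose φ hφ using hcon
  have hinj : Function.Injective φ := by
    intro u w e
    apply C.act_inj x
    rw [← hφ u, ← hφ w, e]
  have hbij : Function.Bijective φ := by
    have : Fintype L := Fintype.ofFinite L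
    have : Fintype L' := Fintype.ofFinite L'
    rw [Fintype.bijective_iff_injective_and_card]
    exact ⟨hinj, by rw [← Nat.card_eq_fintype_card, hcard, Nat.card_eq_fintype_card]⟩
  obtain ⟨u, hu⟩ := hbij.2 s
  exact hs u (by rw [← hφ u, hu])

theorem exists_row_of_split [Finite L] [Finite L'] (hcard : Nat.card L = Nat.card L') {x : V}
    (hx : D.split C x) : ∃ u, ∀ t, D.act t x ≠ C.act u x := by
  obtain ⟨s, hs⟩ := hx
  exact exists_row hcard (s := s) (fun u e => hs (by rw [← e, C.hact]))

/-- First separation lemma. -/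
theorem witness {x : V} {r : L} (hr : D.h (C.act r x) = D.h x)
    (hn : ∀ s, D.act s x ≠ C.act r x) :
    ∃ z, D.h z ≠ D.h x ∧ f x z ≠ f (C.act r x) z :=
  D.sep x _ hr.symm hn

theorem witness_h {x z : V} {r : L} (hxz : f x z ≠ f (C.act r x) z) : C.h z = C.h x := by
  by_contra hne
  exact hxz (C.flat r x z (Ne.symm hne)).symm

theorem witness_col (hf : ∀ x y, f x y = f y x) {x z : V} {r : L} (s : L')
    (hr : D.h (C.act r x) = D.h x) (hz : D.h z ≠ D.h x) (hxz : f x z ≠ f (C.act r x) z) :
    f x (D.act s z) ≠ f (C.act r x) (D.act s z) := by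
  rw [D.flat' hf s (Ne.symm hz), D.flat' hf s (by rw [hr]; exact Ne.symm hz)]
  exact hxz

theorem witness_col_h (hf : ∀ x y, f x y = f y x) {x z : V} {r : L} (s : L')
    (hr : D.h (C.act r x) = D.h x) (hz : D.h z ≠ D.h x) (hxz : f x z ≠ f (C.act r x) z) :
    C.h (D.act s z) = C.h x :=
  witness_h (witness_col hf s hr hz hxz)

/-- If the column of `x` is split then the colours from `x` to the part of a row (in the same
`C`-half) in the other `D`-half are equal. -/
theorem star (hf : ∀ x y, f x y = f y x) {x z : V} (u : L) (hx : D.split C x)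
    (hz : D.h z ≠ D.h x) (hw : D.h (C.act u z) ≠ D.h x) (hc : C.h z = C.h x) :
    f x (C.act u z) = f x z := by
  obtain ⟨s, hs⟩ := hx
  rw [← D.flat s x (C.act u z) (Ne.symm hw), ← D.flat s x z (Ne.symm hz)]
  exact C.flat' hf u (by rw [hc]; exact hs)

/-- In the situation of the first separation lemma, if the column of `x` is split then the point
`z₁` of the row of `z` is in the `D`-half of `x`. -/
theorem witness_one (hf : ∀ x y, f x y = f y x) {x z : V} {r : L} (hx : D.split C x)
    (hz : D.h z ≠ D.h x) (hxz : f x z ≠ f (C.act r x) z) :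
    D.h (C.act (-r) z) = D.h x ∧ f x (C.act (-r) z) = f (C.act r x) z := by
  have h1 : f x (C.act (-r) z) = f (C.act r x) z := by rw [C.aut_left]
  refine ⟨?_, h1⟩
  by_contra hne
  apply hxz
  rw [← h1]
  exact (star hf (-r) hx hz hne (witness_h hxz)).symm

theorem witness_split (hf : ∀ x y, f x y = f y x) {x z : V} {r : L} (hx : D.split C x)
    (hz : D.h z ≠ D.h x) (hxz : f x z ≠ f (C.act r x) z) : C.split D z :=
  ⟨-r, by rw [(witness_one hf hx hz hxz).1]; exact Ne.symm hz⟩

/-- The main lemma on two cell structures. -/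
theorem main_one [Finite L] [Finite L'] (hf : ∀ x y, f x y = f y x)
    (hcard : Nat.card L = Nat.card L') {x : V} {s : L'}
    (hs : C.h (D.act s x) = C.h x) (hrow : ∀ u, C.act u x ≠ D.act s x)
    (ht : C.split D (D.act s x)) {r : L} (hr : D.h (C.act r x) ≠ D.h x)
    (hk : D.split C (C.act r x)) : False := by
  have hxsplit : C.split D x := ⟨r, hr⟩
  obtain ⟨v, hv, hxv⟩ := witness (C := D) (D := C) hs hrow
  have hDv : D.h v = D.h x := witness_h hxv
  -- all points of the row of `v`
  have hrowv : ∀ u, C.h (C.act u v) ≠ C.h x := fun u => by rw [C.hact]; exact hv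
  have hsepv : ∀ u, f x (C.act u v) ≠ f (D.act s x) (C.act u v) := fun u =>
    witness_col hf u hs hv hxv
  have hDrow : ∀ u, D.h (C.act u v) = D.h x := fun u => witness_h (hsepv u)
  have hneg : ∀ u, C.h (D.act (-s) (C.act u v)) = C.h x := fun u =>
    (witness_one hf hxsplit (hrowv u) (hsepv u)).1
  have hpos : ∀ u, C.h (D.act s (C.act u v)) = C.h x := by
    intro u
    have h1 : f (D.act s x) (D.act s (C.act u v)) = f x (C.act u v) := D.aut _ _ _
    have h2 := hsepv u
    by_contra hne
    apply h2
    rw [← h1]
    have := star (C := D) (D := C) hf (x := D.act s x) (z := C.act u v) s ht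
      (by rw [hs]; exact hrowv u) (by rw [hs]; exact hne) (by rw [hDrow, D.hact])
    exact this
  -- the point `v'`
  have hv'C : C.h (D.act (-s) v) = C.h x := by simpa [C.act_zero] using hneg 0
  have hsvC : C.h (D.act s v) = C.h x := by simpa [C.act_zero] using hpos 0
  have hv'split : C.split D (D.act (-s) v) := by
    refine ⟨r, ?_⟩
    rw [D.hact, hDv]
    intro hcon
    -- y = C.act r x
    have e1 : f (C.act r x) v = f x v := C.flat r x v (Ne.symm hv)
    have e2 : f (C.act r x) (D.act (-s) v) = f (C.act r x) v :=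
      D.flat' hf (-s) (by rw [hDv]; exact hr)
    have e3 : f (C.act r x) (C.act r (D.act (-s) v)) = f x (D.act (-s) v) := C.aut _ _ _
    have e4 : f x (D.act (-s) v) = f (D.act s x) v := by rw [D.aut_left]
    have e5 : f (C.act r x) (C.act r (D.act (-s) v)) = f (C.act r x) (D.act (-s) v) := by
      apply star hf r hk
      · rw [D.hact, hDv]; exact Ne.symm hr
      · rw [hcon]; exact Ne.symm hr
      · rw [hv'C, C.hact]
    apply hxv
    rw [← e4, ← e3, e5, e2, e1]
  -- second witness
  have hvcol : D.split C v := ⟨-s, by rw [hv'C]; exact Ne.symm hv⟩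
  obtain ⟨l, hl⟩ := exists_row_of_split hcard hvcol
  have hDl : D.h (C.act l v) = D.h v := by rw [hDrow, hDv]
  obtain ⟨z, hz, hvz⟩ := witness hDl hl
  have hCz : C.h z = C.h v := witness_h hvz
  obtain ⟨hz1, hfz1⟩ := witness_one hf hvcol hz hvz
  set z1 := C.act (-l) z with hz1def
  have hCz1 : C.h z1 = C.h v := by rw [hz1def, C.hact, hCz]
  -- f v' z1 = f v z
  have a1 : f (D.act (-s) v) z1 = f v z := by
    rw [hz1def, C.flat' hf (-l) (by rw [hv'C, hCz]; exact Ne.symm hv),
      D.flat (-s) v z (Ne.symm hz)]
  have a2 : f (D.act s v) z1 = f v z := by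
    rw [hz1def, C.flat' hf (-l) (by rw [hsvC, hCz]; exact Ne.symm hv),
      D.flat s v z (Ne.symm hz)]
  have a3 : f (D.act s (C.act l v)) z1 = f (C.act l v) z := by
    rw [hz1def, C.flat' hf (-l) (by rw [hpos, hCz]; exact Ne.symm hv),
      D.flat s (C.act l v) z (by rw [hDl]; exact Ne.symm hz)]
  -- the point `-s z1`
  have b1 : f v (D.act (-s) z1) = f v z := by rw [← D.aut_left, a2]
  have b2 : f (C.act l v) (D.act (-s) z1) = f (C.act l v) z := by rw [← D.aut_left, a3]
  have hCsz1 : C.h (D.act (-s) z1) = C.h v := by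
    apply witness_h (r := l)
    rw [b1, b2]; exact hvz
  obtain ⟨w, hw⟩ := hv'split
  have hw' : D.h (C.act w (D.act (-s) v)) ≠ D.h z1 := by
    rw [hz1]; rw [D.hact] at hw; exact hw
  have c1 : f (D.act (-s) v) z1 = f (C.act w (D.act (-s) v)) z1 :=
    (C.flat w _ _ (by rw [hv'C, hCz1]; exact Ne.symm hv)).symm
  have c2 : f (C.act w (D.act (-s) v)) (D.act (-s) z1) = f (C.act w (D.act (-s) v)) z1 :=
    D.flat' hf (-s) hw'
  have c3 : f (C.act w (D.act (-s) v)) (D.act (-s) z1) = f (D.act (-s) v) (D.act (-s) z1) :=
    C.flat w _ _ (by rw [hv'C, hCsz1]; exact Ne.symm hv)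
  have c4 : f (D.act (-s) v) (D.act (-s) z1) = f v z1 := D.aut _ _ _
  apply hvz
  rw [← hfz1, ← c4, ← c3, c2, ← c1, a1]

/-- The columns through the row of a witness of the first separation lemma are not split. -/
theorem witness_unsplit [Finite L] [Finite L'] (hf : ∀ x y, f x y = f y x)
    (hcard : Nat.card L = Nat.card L') {x z : V} {r : L} (hx : D.split C x)
    (hr : D.h (C.act r x) = D.h x) (hz : D.h z ≠ D.h x) (hxz : f x z ≠ f (C.act r x) z) :
    ¬ D.split C (C.act (-r) z) := by
  intro hk
  have hzsplit := witness_split hf hx hz hxz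
  obtain ⟨s, hs⟩ := exists_row_of_split (C := D) (D := C) hcard.symm hzsplit
  have hDs : D.h (D.act s z) ≠ D.h x := by rw [D.hact]; exact hz
  have hwit := witness_col hf s hr hz hxz
  refine main_one hf hcard (x := z) (s := s) ?_ hs ?_ (r := -r) ?_ hk
  · rw [witness_h hwit, witness_h hxz]
  · exact witness_split hf hx hDs hwit
  · rw [(witness_one hf hx hz hxz).1]; exact Ne.symm hz

/-- Lemma five. -/
theorem main_two [Finite L] [Finite L'] (hf : ∀ x y, f x y = f y x)
    (hcard : Nat.card L = Nat.card L') {x : V} {r : L} (hr : D.h (C.act r x) = D.h x)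
    (hn : ∀ s, D.act s x ≠ C.act r x) {s : L'} (hs : C.h (D.act s x) ≠ C.h x)
    (ht : C.split D (D.act s x)) : False := by
  have hx : D.split C x := ⟨s, hs⟩
  obtain ⟨z, hz, hxz⟩ := witness hr hn
  obtain ⟨hz1, hfz1⟩ := witness_one hf hx hz hxz
  have huns := witness_unsplit hf hcard hx hr hz hxz
  have hCz : C.h z = C.h x := witness_h hxz
  set z1 := C.act (-r) z with hz1def
  have hCz1 : C.h z1 = C.h x := by rw [hz1def, C.hact, hCz]
  have hCsz1 : C.h (D.act s z1) = C.h x := by rw [h_of_not_split huns, hCz1]
  have a1 : f (D.act s x) z1 = f x z := by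
    rw [hz1def, C.flat' hf (-r) (by rw [hCz]; exact hs), D.flat s x z (Ne.symm hz)]
  have a2 : f (D.act s x) (D.act s z1) = f (C.act r x) z := by rw [D.aut, hfz1]
  obtain ⟨w, hw⟩ := ht
  have hw' : D.h (C.act w (D.act s x)) ≠ D.h z1 := by
    rw [hz1]; rw [D.hact] at hw; exact hw
  have c1 : f (D.act s x) z1 = f (C.act w (D.act s x)) z1 :=
    (C.flat w _ _ (by rw [hCz1]; exact hs)).symm
  have c2 : f (C.act w (D.act s x)) (D.act s z1) = f (C.act w (D.act s x)) z1 :=
    D.flat' hf s hw'
  have c3 : f (C.act w (D.act s x)) (D.act s z1) = f (D.act s x) (D.act s z1) :=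
    C.flat w _ _ (by rw [hCsz1]; exact hs)
  apply hxz
  rw [← a1, ← a2, ← c3, c2, ← c1]

/-- A point is fully split if both its row and its column are split. -/
def FS (C : Cells f L) (D : Cells f L') (x : V) : Prop := C.split D x ∧ D.split C x

theorem FS.symm {x : V} (h : FS C D x) : FS D C x := ⟨h.2, h.1⟩

/-- The points of the column of a fully split point in the other half are row-split. -/
theorem FS.split_opp [Finite L] [Finite L'] (hf : ∀ x y, f x y = f y x)
    (hcard : Nat.card L = Nat.card L') {x : V} (h : FS C D x) {s : L'}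
    (hs : C.h (D.act s x) ≠ C.h x) : C.split D (D.act s x) := by
  by_contra hns
  -- the column of `t = D.act s x` is split
  have ht : D.split C (D.act s x) := split_act s h.2
  obtain ⟨u, hu⟩ := exists_row_of_split hcard ht
  refine main_two hf hcard (x := D.act s x) (r := u) (h_of_not_split hns u) hu (s := -s) ?_ ?_
  · rw [D.act_neg_act]; exact Ne.symm hs
  · rw [D.act_neg_act]; exact h.1

/-- The part of the row of a fully split point `x` in the `D`-half of `x` is in the column. -/
theorem FS.row_sub [Finite L] [Finite L'] (hf : ∀ x y, f x y = f y x)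
    (hcard : Nat.card L = Nat.card L') {x : V} (h : FS C D x) {r : L}
    (hr : D.h (C.act r x) = D.h x) : ∃ s, D.act s x = C.act r x := by
  by_contra hcon
  push Not at hcon
  obtain ⟨s, hs⟩ := h.2
  exact main_two hf hcard hr hcon hs (h.split_opp hf hcard hs)

/-- Full splitting is constant on columns. -/
theorem FS.act_col [Finite L] [Finite L'] (hf : ∀ x y, f x y = f y x)
    (hcard : Nat.card L = Nat.card L') {x : V} (h : FS C D x) (s : L') :
    FS C D (D.act s x) := by
  refine ⟨?_, split_act s h.2⟩
  by_cases hs : C.h (D.act s x) = C.h x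
  · obtain ⟨u, hu⟩ := FS.row_sub (C := D) (D := C) hf hcard.symm h.symm hs
    rw [← hu]
    exact split_act u h.1
  · exact h.split_opp hf hcard hs

theorem FS.act_row [Finite L] [Finite L'] (hf : ∀ x y, f x y = f y x)
    (hcard : Nat.card L = Nat.card L') {x : V} (h : FS C D x) (u : L) :
    FS C D (C.act u x) :=
  (FS.act_col (C := D) (D := C) hf hcard.symm h.symm u).symm

/-- Pattern transport, one direction. -/
theorem pattern_one [Finite L] [Finite L'] (hf : ∀ x y, f x y = f y x)
    (hcard : Nat.card L = Nat.card L') {x : V} (hx : ¬ C.split D x) {s : L'}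
    (hs : C.h (D.act s x) ≠ C.h x) (r : L) : C.h (D.act s (C.act r x)) ≠ C.h x := by
  intro hcon
  have hxc : D.split C x := ⟨s, hs⟩
  have htc : D.split C (D.act s x) := split_act s hxc
  have ht : ¬ C.split D (D.act s x) := by
    intro ht
    have : FS C D (D.act s x) := ⟨ht, htc⟩
    have := (this.act_col hf hcard (-s)).1
    rw [D.act_neg_act] at this
    exact hx this
  obtain ⟨l, hl⟩ := exists_row_of_split hcard htc
  obtain ⟨z, hz, htz⟩ := witness (h_of_not_split ht l) hl
  obtain ⟨hz1, hfz1⟩ := witness_one hf htc hz htz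
  have huns := witness_unsplit hf hcard htc (h_of_not_split ht l) hz htz
  have hCz : C.h z = C.h (D.act s x) := witness_h htz
  have hDz : D.h z ≠ D.h x := by rw [D.hact] at hz; exact hz
  set z1 := C.act (-l) z with hz1def
  have hCz1 : C.h z1 = C.h (D.act s x) := by rw [hz1def, C.hact, hCz]
  have hCsz1 : C.h (D.act (-s) z1) = C.h (D.act s x) := by rw [h_of_not_split huns, hCz1]
  -- values from `y = C.act r x`
  have hDy : D.h (C.act r x) = D.h x := h_of_not_split hx r
  have a1 : f (C.act l (D.act s x)) z = f (C.act r x) (D.act (-s) z1) := by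
    rw [← hfz1, D.aut_left]
    exact (C.flat r _ _ (by rw [hCsz1]; exact Ne.symm hs)).symm
  have a2 : f (C.act r x) (D.act (-s) z1) = f (D.act s (C.act r x)) z1 := by rw [D.aut_left]
  have a3 : f (D.act s (C.act r x)) z1 = f (D.act s (C.act r x)) z := by
    rw [hz1def]
    exact C.flat' hf (-l) (by rw [hcon, hCz]; exact Ne.symm hs)
  have a4 : f (D.act s (C.act r x)) z = f (C.act r x) z :=
    D.flat s _ _ (by rw [hDy]; exact Ne.symm hDz)
  have a5 : f (C.act r x) z = f x z := C.flat r _ _ (by rw [hCz]; exact Ne.symm hs)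
  have a6 : f (D.act s x) z = f x z := D.flat s _ _ (Ne.symm hDz)
  apply htz
  rw [a6, ← a5, ← a4, ← a3, ← a2, ← a1]

/-- Pattern transport. -/
theorem pattern [Finite L] [Finite L'] (hf : ∀ x y, f x y = f y x)
    (hcard : Nat.card L = Nat.card L') {x : V} (hx : ¬ C.split D x) (s : L') (r : L) :
    C.h (D.act s (C.act r x)) = C.h (D.act s x) := by
  by_cases hs : C.h (D.act s x) = C.h x
  · by_contra hne
    have h1 : C.h (D.act s (C.act r x)) ≠ C.h (C.act r x) := by
      rw [C.hact, ← hs]; exact hne
    have := pattern_one hf hcard (not_split_act r hx) h1 (-r)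
    rw [C.act_neg_act, C.hact] at this
    exact this hs
  · exact bool_tri (pattern_one hf hcard hx hs r) hs

/-- A fully split point does not see differences in the rows of points (of the same half) which are
not fully split. -/
theorem FS.const [Finite L] [Finite L'] (hf : ∀ x y, f x y = f y x)
    (hcard : Nat.card L = Nat.card L') {x z : V} (h : FS C D x) (hz : C.h z = C.h x)
    (hnz : ¬ FS C D z) (u : L) : f x (C.act u z) = f x z := by
  by_cases hzr : C.split D z
  · -- the row of `z` is split, all columns through it are not split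
    have hzc : ∀ w, ¬ D.split C (C.act w z) := by
      intro w hw
      apply hnz
      have h1 : FS C D (C.act w z) := ⟨split_act w hzr, hw⟩
      have h2 := h1.act_row hf hcard (-w)
      rwa [C.act_neg_act] at h2
    obtain ⟨s, hs⟩ := h.2
    have hts := h.split_opp hf hcard hs
    obtain ⟨w, hw⟩ := hts
    -- a point in the other half
    obtain ⟨r, hr⟩ : ∃ r, D.h (C.act r z) ≠ D.h x := by
      by_cases e : D.h z = D.h x
      · obtain ⟨r, hr⟩ := hzr
        exact ⟨r, by rw [← e]; exact hr⟩
      · exact ⟨0, by rw [C.act_zero]; exact e⟩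
    have key : ∀ v, f x (C.act v z) = f x (C.act r z) := by
      intro v
      by_cases e : D.h (C.act v z) = D.h x
      · have hCv : C.h (C.act v z) = C.h x := by rw [C.hact, hz]
        have hCsv : C.h (D.act s (C.act v z)) = C.h x := by rw [h_of_not_split (hzc v), hCv]
        have hw' : D.h (C.act w (D.act s x)) ≠ D.h (C.act v z) := by
          rw [e]; rw [D.hact] at hw; exact hw
        have c1 : f (D.act s x) (C.act v z) = f (C.act w (D.act s x)) (C.act v z) :=
          (C.flat w _ _ (by rw [hCv]; exact hs)).symm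
        have c2 : f (C.act w (D.act s x)) (D.act s (C.act v z)) =
            f (C.act w (D.act s x)) (C.act v z) := D.flat' hf s hw'
        have c3 : f (C.act w (D.act s x)) (D.act s (C.act v z)) =
            f (D.act s x) (D.act s (C.act v z)) :=
          C.flat w _ _ (by rw [hCsv]; exact hs)
        have c4 : f (D.act s x) (D.act s (C.act v z)) = f x (C.act v z) := D.aut _ _ _
        have d1 : f (D.act s x) (C.act v z) = f (D.act s x) z :=
          C.flat' hf v (by rw [hz]; exact hs)
        have d2 : f (D.act s x) (C.act r z) = f (D.act s x) z :=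
          C.flat' hf r (by rw [hz]; exact hs)
        have d3 : f (D.act s x) (C.act r z) = f x (C.act r z) := D.flat s _ _ (Ne.symm hr)
        rw [← c4, ← c3, c2, ← c1, d1, ← d2, d3]
      · have := star (C := C) (D := D) hf (x := x) (z := C.act r z) (v - r) h.2 hr
          (by rw [← C.act_add, sub_add_cancel]; exact e) (by rw [C.hact, hz])
        rwa [← C.act_add, sub_add_cancel] at this
    have h1 := key u
    have h2 := key 0
    rw [C.act_zero] at h2
    rw [h1, h2]
  · by_cases e : D.h z = D.h x
    · obtain ⟨r, hr⟩ := h.1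
      have hFS := h.act_row hf hcard r
      have key : ∀ v, f (C.act r x) (C.act v z) = f (C.act r x) z := by
        intro v
        apply star hf v hFS.2
        · rw [e]; exact Ne.symm hr
        · rw [h_of_not_split hzr, e]; exact Ne.symm hr
        · rw [C.hact, hz]
      have h1 : f x (C.act u z) = f (C.act r x) (C.act (r + u) z) := by
        rw [C.act_add, C.aut]
      have h2 : f x z = f (C.act r x) (C.act r z) := by rw [C.aut]
      rw [h1, h2, key, key]
    · exact star hf u h.2 e (by rw [h_of_not_split hzr]; exact e) hz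

end Cells

end Pool.Agent.BG
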