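import Pool.Agent.Lib.MP_291637_al.Str
import Pool.Agent.Lib.MP_291637_al_h9.Cells

/-!
# Two half structures

The theorem on two half structures `P`, `Q` of the same symmetric relation: either every point is
moved to the other half of `P` by the involution of `Q` and vice versa, or no point has both
properties, and in each case the property of a point to be moved to the other half of `P` by the
involution of `Q` is invariant under the involution of `P`.
-/

set_option autoImplicit false

namespace Pool.Agent.BG

namespace Str

variable {V : Type*} {f : V → V → Bool}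

/-- The action of the group of order two. -/
def act2 (P : Str f) (u : ZMod 2) (x : V) : V := if u = 0 then x else P.c x

theorem act2_zero (P : Str f) (x : V) : P.act2 0 x = x := by simp [act2]

theorem act2_one (P : Str f) (x : V) : P.act2 1 x = P.c x := by
  rw [act2, if_neg]; decide

theorem zmod2_cases (u : ZMod 2) : u = 0 ∨ u = 1 := by revert u; decide

/-- A half structure is a cell structure. -/
def cells (P : Str f) : Cells f (ZMod 2) where
  act := P.act2
  h := P.h
  act_zero := P.act2_zero
  act_add u w x := by
    rcases zmod2_cases u with rfl | rfl <;> rcases zmod2_cases w with rfl | rfl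
    · simp [act2_zero]
    · simp [act2_zero]
    · simp [act2_zero]
    · rw [show (1 : ZMod 2) + 1 = 0 by decide, act2_zero, act2_one, act2_one, P.cc]
  free u x e := by
    rcases zmod2_cases u with rfl | rfl
    · rfl
    · rw [act2_one] at e
      exact absurd e (P.fpf x)
  hact u x := by
    rcases zmod2_cases u with rfl | rfl
    · rw [act2_zero]
    · rw [act2_one, P.hc]
  aut u x y := by
    rcases zmod2_cases u with rfl | rfl
    · rw [act2_zero, act2_zero]
    · rw [act2_one, act2_one, P.aut]
  flat u x y e := by
    rcases zmod2_cases u with rfl | rfl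
    · rw [act2_zero]
    · rw [act2_one, P.flat x y e]
  sep x y e h := by
    apply P.sep x y e
    · have := h 0
      rw [act2_zero] at this
      exact Ne.symm this
    · have := h 1
      rw [act2_one] at this
      exact Ne.symm this

theorem cells_act_one (P : Str f) (x : V) : P.cells.act 1 x = P.c x := P.act2_one x

theorem cells_h (P : Str f) (x : V) : P.cells.h x = P.h x := rfl

theorem split_iff (P Q : Str f) (x : V) : P.cells.split Q.cells x ↔ Q.h (P.c x) ≠ Q.h x := by
  constructor
  · rintro ⟨u, hu⟩
    rcases zmod2_cases u with rfl | rfl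
    · exact absurd (by rw [P.cells.act_zero]) hu
    · rwa [cells_act_one] at hu
  · intro h
    exact ⟨1, by rw [cells_act_one]; exact h⟩

theorem fs_iff (P Q : Str f) (x : V) :
    Cells.FS P.cells Q.cells x ↔ Q.h (P.c x) ≠ Q.h x ∧ P.h (Q.c x) ≠ P.h x := by
  rw [Cells.FS, split_iff, split_iff]

/-- Either all points are fully split or none. -/
theorem rainbow_or (hf : ∀ x y, f x y = f y x) (P Q : Str f) :
    (∀ x, Q.h (P.c x) ≠ Q.h x ∧ P.h (Q.c x) ≠ P.h x) ∨
      ∀ x, ¬ (Q.h (P.c x) ≠ Q.h x ∧ P.h (Q.c x) ≠ P.h x) := by
  by_cases hex : ∃ x, Cells.FS P.cells Q.cells x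
  · left
    have key : ∀ x, Cells.FS P.cells Q.cells x → ∀ y, P.h y = P.h x →
        Cells.FS P.cells Q.cells y := by
      intro x hx y hy
      have := P.conn (P.h x) {z | P.h z = P.h x ∧ Cells.FS P.cells Q.cells z}
        (fun z hz => hz.1) (fun z hz => ⟨by rw [P.hc, hz.1], by
          have := hz.2.act_row hf rfl 1
          rwa [cells_act_one] at this⟩) ⟨x, rfl, hx⟩ ?_ y hy
      · exact this.2
      · rintro z ⟨hz1, hz2⟩ w hw hw1
        have hnw : ¬ Cells.FS P.cells Q.cells w := fun h => hw ⟨hw1, h⟩
        have h1 := hz2.const hf rfl (z := w) (by rw [cells_h, cells_h, hw1, hz1]) hnw 1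
        rw [cells_act_one] at h1
        rw [← h1]
        have := P.aut (P.c z) w
        rw [P.cc] at this
        exact this.symm
    obtain ⟨x, hx⟩ := hex
    intro y
    rw [← fs_iff]
    by_cases e : P.h y = P.h x
    · exact key x hx y e
    · have h1 := (fs_iff P Q x).1 hx
      have h2 : Cells.FS P.cells Q.cells (Q.c x) := by
        have := hx.act_col hf rfl 1
        rwa [cells_act_one] at this
      exact key _ h2 y (bool_tri e h1.2)
  · right
    intro x hx
    exact hex ⟨x, (fs_iff P Q x).2 hx⟩

/-- Type constancy. -/
theorem cross_c (hf : ∀ x y, f x y = f y x) (P Q : Str f) (x : V) :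
    P.h (Q.c (P.c x)) = P.h (P.c x) ↔ P.h (Q.c x) = P.h x := by
  by_cases hx : P.cells.split Q.cells x
  · by_cases hfs : Cells.FS P.cells Q.cells x
    · have h1 := (fs_iff P Q x).1 hfs
      have h2 := hfs.act_row hf rfl 1
      rw [cells_act_one] at h2
      have h3 := (fs_iff P Q _).1 h2
      exact ⟨fun e => absurd e h3.2, fun e => absurd e h1.2⟩
    · have h1 : ¬ Q.cells.split P.cells x := fun h => hfs ⟨hx, h⟩
      have h2 : ¬ Q.cells.split P.cells (P.c x) := by
        intro h
        apply hfs
        have h3 : Cells.FS P.cells Q.cells (P.c x) := by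
          refine ⟨?_, h⟩
          have := Cells.split_act (1 : ZMod 2) hx
          rwa [cells_act_one] at this
        have h4 := h3.act_row hf rfl 1
        rwa [cells_act_one, P.cc] at h4
      rw [split_iff, not_not] at h1 h2
      exact ⟨fun _ => h1, fun _ => h2⟩
  · have := Cells.pattern hf rfl hx (1 : ZMod 2) (1 : ZMod 2)
    rw [cells_act_one, cells_act_one, cells_act_one, cells_h, cells_h] at this
    rw [this, P.hc]

end Str

end Pool.Agent.BG
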