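import Pool.Agent.Lib.MP_291637_al_h9.Cells

/-!
# Columns which are split but not fully split

A column which is split by the cut of another structure and whose rows are not split is split
according to a subgroup of index two; in particular elements of odd order do not move its points to
the other half.
-/

set_option autoImplicit false

namespace Pool.Agent.BG

namespace Cells

variable {V : Type*} {f : V → V → Bool} {L L' : Type*} [AddCommGroup L] [AddCommGroup L']
variable {C : Cells f L} {D : Cells f L'}

/-- The elements of the second group which move `x` to the other half lie in one coset of a subgroup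
which does not contain them. -/
theorem exists_subgroup [Finite L] [Finite L'] (hf : ∀ x y, f x y = f y x)
    (hcard : Nat.card L = Nat.card L') {x : V} (hx : ¬ C.split D x) (hxc : D.split C x) :
    ∃ H : AddSubgroup L', (∀ s t, C.h (D.act s x) ≠ C.h x → C.h (D.act t x) ≠ C.h x →
      s - t ∈ H) ∧ ∀ s, C.h (D.act s x) ≠ C.h x → s ∉ H := by
  obtain ⟨r, hr⟩ := exists_row_of_split hcard hxc
  have hrx : D.h (C.act r x) = D.h x := h_of_not_split hx r
  obtain ⟨z, hz, hxz⟩ := witness hrx hr
  obtain ⟨hz1, hfz1⟩ := witness_one hf hxc hz hxz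
  have huns := witness_unsplit hf hcard hxc hrx hz hxz
  have hCz : C.h z = C.h x := witness_h hxz
  have hrz1 : C.act r (C.act (-r) z) = z := C.act_act_neg r z
  set z1 := C.act (-r) z with hz1def
  have hCz1 : C.h z1 = C.h x := by rw [hz1def, C.hact, hCz]
  have hCu : ∀ u, C.h (D.act u z1) = C.h x := fun u => by rw [h_of_not_split huns, hCz1]
  have hpat : ∀ u, D.h (C.act r (D.act u z1)) ≠ D.h x := by
    intro u
    rw [pattern (C := D) (D := C) hf hcard.symm huns r u, hrz1]
    exact hz
  -- the key computation
  have key : ∀ s, C.h (D.act s x) ≠ C.h x → ∀ u,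
      f x (D.act (u - s) z1) = f x (C.act r (D.act u z1)) := by
    intro s hs u
    have e1 : f (D.act s x) (D.act u z1) = f x (D.act (u - s) z1) := by
      rw [D.aut_left, ← D.act_add]
      congr 2
      abel
    have e2 : f (D.act s x) (C.act r (D.act u z1)) = f (D.act s x) (D.act u z1) :=
      C.flat' hf r (by rw [hCu]; exact hs)
    have e3 : f (D.act s x) (C.act r (D.act u z1)) = f x (C.act r (D.act u z1)) :=
      D.flat s _ _ (Ne.symm (hpat u))
    rw [← e1, ← e2, e3]
  let H : AddSubgroup L' :=
    { carrier := {h | ∀ w, f x (D.act (w + h) z1) = f x (D.act w z1)}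
      add_mem' := by
        intro a b ha hb w
        rw [← add_assoc, hb, ha]
      zero_mem' := by
        intro w
        rw [add_zero]
      neg_mem' := by
        intro a ha w
        have := ha (w + -a)
        rw [neg_add_cancel_right] at this
        exact this.symm }
  refine ⟨H, ?_, ?_⟩
  · intro s t hs ht w
    have h1 := key s hs (w + s)
    have h2 := key t ht (w + s)
    rw [add_sub_cancel_right] at h1
    rw [h1, ← h2]
    congr 2
    abel
  · intro s hs hsH
    apply hxz
    have h1 : f x (D.act (-s) z1) = f x z := by
      rw [← D.aut_left, hz1def, C.flat' hf (-r) (by rw [hCz]; exact hs), D.flat s x z (Ne.symm hz)]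
    have h2 := hsH (-s)
    rw [neg_add_cancel, D.act_zero] at h2
    rw [← h1, ← h2, hfz1]

theorem mem_of_two {H : AddSubgroup L'} {s : L'} {n : ℕ} (hn : Odd n) (h : n • s = 0)
    (h2 : s + s ∈ H) : s ∈ H := by
  obtain ⟨k, rfl⟩ := hn
  have h3 : (k + 1) • (s + s) = s := by
    have : (k + 1) • (s + s) = (2 * k + 1) • s + s := by
      rw [← two_nsmul, ← mul_nsmul', ← succ_nsmul]
      congr 1
      ring
    rw [this, h, zero_add]
  rw [← h3]
  exact H.nsmul_mem h2 _

/-- Elements of odd order do not move the points of split but not fully split columns to the other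
half. -/
theorem odd_not_fs [Finite L] [Finite L'] (hf : ∀ x y, f x y = f y x)
    (hcard : Nat.card L = Nat.card L') {x : V} (hx : ¬ C.split D x) {s : L'} {n : ℕ} (hn : Odd n)
    (hs : n • s = 0) : C.h (D.act s x) = C.h x := by
  by_contra hne
  have hxc : D.split C x := ⟨s, hne⟩
  obtain ⟨H, h1, h2⟩ := exists_subgroup hf hcard hx hxc
  by_cases h2s : C.h (D.act (s + s) x) = C.h x
  · have htc : D.split C (D.act s x) := split_act s hxc
    have htr : ¬ C.split D (D.act s x) := by
      intro ht
      have : FS C D (D.act s x) := ⟨ht, htc⟩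
      have := (this.act_col hf hcard (-s)).1
      rw [D.act_neg_act] at this
      exact hx this
    obtain ⟨H', h1', h2'⟩ := exists_subgroup hf hcard htr htc
    have e1 : C.h (D.act s (D.act s x)) ≠ C.h (D.act s x) := by
      rw [← D.act_add, h2s]; exact Ne.symm hne
    have e2 : C.h (D.act (-s) (D.act s x)) ≠ C.h (D.act s x) := by
      rw [D.act_neg_act]; exact Ne.symm hne
    have e3 := h1' s (-s) e1 e2
    rw [sub_neg_eq_add] at e3
    exact h2' s e1 (mem_of_two hn hs e3)
  · have := h1 (s + s) s h2s hne
    rw [add_sub_cancel_right] at this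
    exact h2 s hne this

/-- The image of a cell structure under an automorphism. -/
def conj (C : Cells f L) (g : Equiv.Perm V) (hg : ∀ x y, f (g x) (g y) = f x y) : Cells f L where
  act u x := g (C.act u (g.symm x))
  h x := C.h (g.symm x)
  act_zero x := by rw [C.act_zero, Equiv.apply_symm_apply]
  act_add u w x := by rw [Equiv.symm_apply_apply, C.act_add]
  free u x e := by
    apply C.free u (g.symm x)
    rw [Equiv.eq_symm_apply]
    exact e
  hact u x := by rw [Equiv.symm_apply_apply, C.hact]
  aut u x y := by
    rw [hg, C.aut, ← hg, Equiv.apply_symm_apply, Equiv.apply_symm_apply]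
  flat u x y e := by
    have h1 := C.flat u (g.symm x) (g.symm y) e
    have h2 := hg (C.act u (g.symm x)) (g.symm y)
    have h3 := hg (g.symm x) (g.symm y)
    rw [Equiv.apply_symm_apply] at h2 h3
    rw [Equiv.apply_symm_apply] at h3
    rw [h2, h3, h1]
  sep x y e h := by
    obtain ⟨z, hz, hz'⟩ := C.sep (g.symm x) (g.symm y) e (fun u e' => h u (by
      rw [e', Equiv.apply_symm_apply]))
    refine ⟨g z, by rw [Equiv.symm_apply_apply]; exact hz, ?_⟩
    have h2 := hg (g.symm x) z
    have h3 := hg (g.symm y) z
    rw [Equiv.apply_symm_apply] at h2 h3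
    rw [h2, h3]
    exact hz'

end Cells

end Pool.Agent.BG
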