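import Pool.Agent.Lib.MP_291637_al.Basic
import Pool.Agent.Lib.MP_291637_al_h9.Cells2

/-!
# The group of periods

In the situation of a primitive group the group of periods of the cross colouring consists of the
neutral element and the involution.
-/

set_option autoImplicit false

namespace Pool.Agent.BG

namespace Sit

variable {P : Type} [AddCommGroup P] (S : Sit P)

/-- The base cell structure. -/
def cells : Cells S.f S.L where
  act u x := ⟨x.a + u.1, x.i⟩
  h x := x.i
  act_zero x := by
    refine Dic.ext' ?_ rfl
    exact add_zero _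
  act_add u w x := by
    refine Dic.ext' ?_ rfl
    change x.a + (u.1 + w.1) = x.a + w.1 + u.1
    abel
  free u x e := by
    have := congrArg Dic.a e
    exact Subtype.ext (left_eq_add.1 this.symm)
  hact u x := rfl
  aut u x y := by
    have := S.inv ⟨u.1, false⟩ x y
    obtain ⟨a, i⟩ := x
    obtain ⟨b, j⟩ := y
    rw [Dic.mul_f, Dic.mul_f, add_comm u.1 a, add_comm u.1 b] at this
    exact this
  flat u x y e := by
    obtain ⟨a, i⟩ := x
    obtain ⟨b, j⟩ := y
    obtain ⟨u, hu⟩ := u
    cases i <;> cases j
    · exact absurd rfl e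
    · change S.f ⟨a + u, false⟩ ⟨b, true⟩ = _
      rw [f_ft, f_ft]
      have := hu (b - (a + u))
      rw [← this]
      congr 1; abel
    · change S.f ⟨a + u, true⟩ ⟨b, false⟩ = _
      rw [f_tf, f_tf]
      have := hu (a - b)
      rw [← this]
      congr 1; abel
    · exact absurd rfl e
  sep x y hxy h := by
    obtain ⟨a, i⟩ := x
    obtain ⟨b, j⟩ := y
    change i = j at hxy
    subst hxy
    by_contra hcon
    push Not at hcon
    have key : b - a ∈ S.L := by
      cases i
      · intro z
        have := hcon ⟨z + b, true⟩ (by simp)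
        rw [f_ft, f_ft, add_sub_cancel_right, add_sub_assoc] at this
        exact this
      · intro z
        have := hcon ⟨a - z, false⟩ (by simp)
        rw [f_tf, f_tf, sub_sub_cancel, show b - (a - z) = z + (b - a) by abel] at this
        exact this.symm
    apply h ⟨b - a, key⟩
    refine Dic.ext' ?_ rfl
    exact add_sub_cancel _ _

theorem cells_h (x : Dic P) : S.cells.h x = x.i := rfl

theorem cells_act (u : S.L) (a : AA P) (i : Bool) : S.cells.act u ⟨a, i⟩ = ⟨a + u.1, i⟩ := rfl

theorem f_same (i : Bool) (a b : AA P) : S.f ⟨a, i⟩ ⟨b, i⟩ = S.f0 (b - a) := by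
  cases i
  · exact S.f_ff a b
  · exact S.f_tt a b

section Label

variable {lab : AA P → Bool}

/-- If the labels are not periodic under `γ` on a coset of `L` then both kinds of changes occur. -/
theorem change {M : AddSubgroup (AA P)} (hM : (M : Set (AA P)).Finite) {a γ : AA P} (hγ : γ ∈ M)
    (h : ∃ u ∈ M, lab (a + u + γ) ≠ lab (a + u)) (e : Bool) :
    ∃ u ∈ M, lab (a + u) = e ∧ lab (a + u + γ) ≠ e := by
  by_contra hcon
  push Not at hcon
  obtain ⟨u, hu, hne⟩ := h
  have hiter : ∀ v ∈ M, lab (a + v) = e → ∀ k : ℕ, lab (a + v + k • γ) = e := by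
    intro v hv hve k
    induction k with
    | zero => simpa using hve
    | succ k ih =>
      have hvk : v + k • γ ∈ M := M.add_mem hv (M.nsmul_mem hγ k)
      have := hcon (v + k • γ) hvk (by rw [← add_assoc]; exact ih)
      rw [succ_nsmul]
      rw [← this]
      congr 1; abel
  have hfin : Finite M := hM
  have hord : ∃ N : ℕ, 0 < N ∧ N • γ = 0 := by
    have h1 : IsOfFinAddOrder (⟨γ, hγ⟩ : M) := isOfFinAddOrder_of_finite _
    rw [isOfFinAddOrder_iff_nsmul_eq_zero] at h1
    obtain ⟨N, hN, h2⟩ := h1
    exact ⟨N, hN, by have := congrArg Subtype.val h2; simpa using this⟩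
  obtain ⟨N, hN, hNγ⟩ := hord
  by_cases hue : lab (a + u) = e
  · apply hne
    rw [hcon u hu hue, hue]
  · have h1 : lab (a + u + γ) = e := by
      revert hne hue
      cases lab (a + u + γ) <;> cases lab (a + u) <;> cases e <;> simp
    have h2 := hiter (u + γ) (M.add_mem hu hγ) (by rw [← add_assoc]; exact h1) (N - 1)
    apply hue
    rw [← h2]
    congr 1
    have : γ + (N - 1) • γ = 0 := by
      rw [← succ_nsmul']
      rw [Nat.sub_add_cancel hN, hNγ]
    rw [← add_assoc, add_assoc (a + u), this, add_zero]

end Label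

variable [Pruf P]

theorem finite_L : Finite S.L := S.L_finite

/-- The labels of a half all of whose points are fully split are invariant under elements of odd
order of `L`. -/
theorem fs_odd {D : Cells S.f S.L} (i : Bool) (hFS : ∀ a, Cells.FS S.cells D ⟨a, i⟩)
    {v : AA P} (hv : v ∈ S.L) {N : ℕ} (hN : Odd N) (hNv : N • v = 0) (a : AA P) :
    D.h ⟨a + v, i⟩ = D.h ⟨a, i⟩ := by
  have hLfin : Finite S.L := S.finite_L
  set lab : AA P → Bool := fun a => D.h ⟨a, i⟩ with hlab
  -- the stabilizers
  let St : AA P → AddSubgroup (AA P) := fun a =>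
    { carrier := {v | v ∈ S.L ∧ ∀ u ∈ S.L, lab (a + u + v) = lab (a + u)}
      add_mem' := by
        rintro v w ⟨hv1, hv2⟩ ⟨hw1, hw2⟩
        refine ⟨S.L.add_mem hv1 hw1, fun u hu => ?_⟩
        have h1 := hw2 (u + v) (S.L.add_mem hu hv1)
        have h2 := hv2 u hu
        rw [← h2, ← add_assoc]
        rw [← add_assoc] at h1
        exact h1
      zero_mem' := ⟨S.L.zero_mem, fun u _ => by rw [add_zero]⟩
      neg_mem' := by
        rintro v ⟨hv1, hv2⟩
        refine ⟨S.L.neg_mem hv1, fun u hu => ?_⟩
        have h1 := hv2 (u + -v) (S.L.add_mem hu (S.L.neg_mem hv1))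
        have e1 : a + (u + -v) + v = a + u := by abel
        have e2 : a + (u + -v) = a + u + -v := by abel
        rw [e1, e2] at h1
        exact h1.symm }
  have memSt : ∀ a v, v ∈ St a ↔ v ∈ S.L ∧ ∀ u ∈ S.L, lab (a + u + v) = lab (a + u) :=
    fun a v => Iff.rfl
  -- rows are split
  have hsplit : ∀ a, ∃ u ∈ S.L, lab (a + u) ≠ lab a := by
    intro a
    obtain ⟨u, hu⟩ := (hFS a).1
    exact ⟨u.1, u.2, hu⟩
  have hproper : ∀ a, ∃ γ ∈ S.L, γ ∉ St a := by
    intro a
    obtain ⟨u, hu, hne⟩ := hsplit a
    refine ⟨u, hu, fun hmem => hne ?_⟩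
    have := (memSt a u).1 hmem
    have h1 := this.2 0 S.L.zero_mem
    rwa [add_zero] at h1
  -- colours between points with different labels
  have hstar : ∀ a d u w w', u ∈ S.L → w ∈ S.L → w' ∈ S.L → lab (a + u) ≠ lab (a + d + w) →
      lab (a + u) ≠ lab (a + d + w') → S.f0 (d + w - u) = S.f0 (d + w' - u) := by
    intro a d u w w' hu hw hw' h1 h2
    have := Cells.star (C := S.cells) (D := D) (f := S.f) S.symm (x := ⟨a + u, i⟩)
      (z := ⟨a + d + w', i⟩) ⟨w - w', S.L.sub_mem hw hw'⟩ (hFS _).2 (Ne.symm h2) (by
        rw [cells_act]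
        have e : a + d + w' + (w - w') = a + d + w := by abel
        change D.h ⟨a + d + w' + (w - w'), i⟩ ≠ _
        rw [e]; exact Ne.symm h1) rfl
    rw [cells_act] at this
    change S.f ⟨a + u, i⟩ ⟨a + d + w' + (w - w'), i⟩ = _ at this
    rw [f_same, f_same] at this
    have e1 : a + d + w' + (w - w') - (a + u) = d + w - u := by abel
    have e2 : a + d + w' - (a + u) = d + w' - u := by abel
    rw [e1, e2] at this
    exact this
  have hstar' : ∀ a d u u' w, u ∈ S.L → u' ∈ S.L → w ∈ S.L → lab (a + u) ≠ lab (a + d + w) →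
      lab (a + u') ≠ lab (a + d + w) → S.f0 (d + w - u) = S.f0 (d + w - u') := by
    intro a d u u' w hu hu' hw h1 h2
    have h3 := hstar (a + d) (-d) w u u' hw hu hu'
    have e1 : a + d + -d + u = a + u := by abel
    have e2 : a + d + -d + u' = a + u' := by abel
    rw [e1, e2] at h3
    have h4 := h3 (Ne.symm h1) (Ne.symm h2)
    have e3 : -d + u - w = -(d + w - u) := by abel
    have e4 : -d + u' - w = -(d + w - u') := by abel
    rw [e3, e4, f0_neg, f0_neg] at h4
    exact h4
  -- transport
  have htrans : ∀ a d, ∃ e : Bool, ∀ n ∈ S.L, S.f0 (d + n) ≠ e → ∀ u ∈ S.L,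
      lab (a + d + n + u) = lab (a + u) := by
    intro a d
    -- an element outside both stabilizers
    obtain ⟨γ, hγ, hγ1, hγ2⟩ : ∃ γ ∈ S.L, γ ∉ St a ∧ γ ∉ St (a + d) := by
      obtain ⟨g1, hg1, hg1'⟩ := hproper a
      obtain ⟨g2, hg2, hg2'⟩ := hproper (a + d)
      by_cases h1 : g1 ∈ St (a + d)
      · by_cases h2 : g2 ∈ St a
        · refine ⟨g1 + g2, S.L.add_mem hg1 hg2, fun h => ?_, fun h => ?_⟩
          · exact hg1' (((St a).add_mem_cancel_right h2).1 h)
          · exact hg2' (((St (a + d)).add_mem_cancel_left h1).1 h)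
        · exact ⟨g2, hg2, h2, hg2'⟩
      · exact ⟨g1, hg1, hg1', h1⟩
    have hc1 : ∃ u ∈ S.L, lab (a + u + γ) ≠ lab (a + u) := by
      by_contra hcon
      push Not at hcon
      exact hγ1 ((memSt _ _).2 ⟨hγ, hcon⟩)
    have hc2 : ∃ u ∈ S.L, lab (a + d + u + γ) ≠ lab (a + d + u) := by
      by_contra hcon
      push Not at hcon
      exact hγ2 ((memSt _ _).2 ⟨hγ, hcon⟩)
    obtain ⟨u0, hu0, hu1, hu2⟩ := change S.L_finite hγ hc1 false
    obtain ⟨w0, hw0, hw1, hw2⟩ := change S.L_finite hγ hc2 true
    have hu2' : lab (a + u0 + γ) = true := by simpa using hu2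
    have hw2' : lab (a + d + w0 + γ) = false := by simpa using hw2
    -- all pairs with different labels have the same colour
    have hall : ∀ u ∈ S.L, ∀ w ∈ S.L, lab (a + u) ≠ lab (a + d + w) →
        S.f0 (d + w - u) = S.f0 (d + w0 - u0) := by
      intro u hu w hw hne
      have hfalse : ∀ u ∈ S.L, ∀ w ∈ S.L, lab (a + u) = false → lab (a + d + w) = true →
          S.f0 (d + w - u) = S.f0 (d + w0 - u0) := by
        intro u hu w hw h1 h2
        rw [hstar a d u w w0 hu hw hw0 (by rw [h1, h2]; decide) (by rw [h1, hw1]; decide)]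
        exact hstar' a d u u0 w0 hu hu0 hw0 (by rw [h1, hw1]; decide) (by rw [hu1, hw1]; decide)
      have htrue : ∀ u ∈ S.L, ∀ w ∈ S.L, lab (a + u) = true → lab (a + d + w) = false →
          S.f0 (d + w - u) = S.f0 (d + w0 - u0) := by
        intro u hu w hw h1 h2
        have hu3 : lab (a + (u0 + γ)) = true := by rw [← add_assoc]; exact hu2'
        have hw3 : lab (a + d + (w0 + γ)) = false := by rw [← add_assoc]; exact hw2'
        have hu4 := S.L.add_mem hu0 hγ
        have hw4 := S.L.add_mem hw0 hγ
        rw [hstar a d u w (w0 + γ) hu hw hw4 (by rw [h1, h2]; decide) (by rw [h1, hw3]; decide)]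
        rw [hstar' a d u (u0 + γ) (w0 + γ) hu hu4 hw4 (by rw [h1, hw3]; decide)
          (by rw [hu3, hw3]; decide)]
        congr 1; abel
      cases h1 : lab (a + u)
      · apply hfalse u hu w hw h1
        rw [h1] at hne
        simpa using Ne.symm hne
      · apply htrue u hu w hw h1
        rw [h1] at hne
        simpa using Ne.symm hne
    refine ⟨S.f0 (d + w0 - u0), fun n hn hne u hu => ?_⟩
    by_contra hlne
    apply hne
    have := hall u hu (u + n) (S.L.add_mem hu hn) (by
      have e : a + d + (u + n) = a + d + n + u := by abel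
      rw [e]; exact Ne.symm hlne)
    rw [← this]
    congr 1; abel
  -- stabilizers are constant
  have hSt : ∀ a b, St a = St b := by
    have h1 : ∀ a w, w ∈ S.L → St (a + w) = St a := by
      intro a w hw
      ext v
      rw [memSt, memSt]
      constructor
      · rintro ⟨h1, h2⟩
        refine ⟨h1, fun u hu => ?_⟩
        have := h2 (u - w) (S.L.sub_mem hu hw)
        have e1 : a + w + (u - w) = a + u := by abel
        rw [e1] at this
        exact this
      · rintro ⟨h1, h2⟩
        refine ⟨h1, fun u hu => ?_⟩
        have := h2 (w + u) (S.L.add_mem hw hu)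
        rw [← add_assoc] at this
        exact this
    have h2 : ∀ a d, d ∈ S.D → St (a + d) = St a := by
      intro a d hd
      obtain ⟨e, he⟩ := htrans a d
      obtain ⟨n, hn, hne⟩ : ∃ n ∈ S.L, S.f0 (d + n) ≠ e := by
        by_cases h : S.f0 d = e
        · refine ⟨cA, S.cA_mem_L, fun h' => hd ?_⟩
          rw [h, h']
        · exact ⟨0, S.L.zero_mem, by rw [add_zero]; exact h⟩
      have h3 := he n hn hne
      rw [← h1 (a + d) n hn]
      ext v
      rw [memSt, memSt]
      refine and_congr_right fun hv => ?_
      constructor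
      · intro h u hu
        have := h u hu
        rw [add_assoc (a + d + n) u v, h3 _ (S.L.add_mem hu hv), h3 u hu, ← add_assoc] at this
        exact this
      · intro h u hu
        rw [add_assoc (a + d + n) u v, h3 _ (S.L.add_mem hu hv), h3 u hu, ← add_assoc]
        exact h u hu
    intro a b
    have := S.D_univ (U := {x | St x = St b}) ⟨b, rfl⟩ (fun x hx d hd => by
      change St (x + d) = St b
      rw [h2 x d hd]; exact hx) a
    exact this
  -- it is enough to show that `v` is in the stabilizer
  suffices hmain : v ∈ St a by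
    have := ((memSt a v).1 hmain).2 0 S.L.zero_mem
    rwa [add_zero] at this
  by_cases hcase : ∀ d, ∃ e : Bool, ∀ a, ∀ n ∈ S.L, S.f0 (d + n) ≠ e → ∀ u ∈ S.L,
      lab (a + d + n + u) = lab (a + u)
  · -- global periods
    let Ag : AddSubgroup (AA P) :=
      { carrier := {b | ∀ a, lab (a + b) = lab a}
        add_mem' := by
          intro b b' hb hb' a
          rw [← add_assoc, hb', hb]
        zero_mem' := fun a => by rw [add_zero]
        neg_mem' := by
          intro b hb a
          have := hb (a + -b)
          rw [neg_add_cancel_right] at this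
          exact this.symm }
    have hD : ∀ d ∈ S.D, d ∈ Ag ∨ d + cA ∈ Ag := by
      intro d hd
      obtain ⟨e, he⟩ := hcase d
      by_cases h : S.f0 d = e
      · right
        intro a
        have := he a cA S.cA_mem_L (fun h' => hd (by rw [h, h'])) 0 S.L.zero_mem
        rw [add_zero, add_zero, add_assoc] at this
        exact this
      · left
        intro a
        have := he a 0 S.L.zero_mem (by rw [add_zero]; exact h) 0 S.L.zero_mem
        rw [add_zero, add_zero, add_zero] at this
        exact this
    have hall : ∀ x : AA P, x ∈ Ag ∨ x + cA ∈ Ag := by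
      intro x
      have hx : x ∈ AddSubgroup.closure S.D := by rw [closure_D]; trivial
      induction hx using AddSubgroup.closure_induction with
      | mem d hd => exact hD d hd
      | zero => left; exact Ag.zero_mem
      | add x y _ _ hx hy =>
        rcases hx with hx | hx <;> rcases hy with hy | hy
        · left; exact Ag.add_mem hx hy
        · right; rw [add_assoc]; exact Ag.add_mem hx hy
        · right
          have := Ag.add_mem hx hy
          have e : x + cA + y = x + y + cA := by abel
          rwa [e] at this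
        · left
          have := Ag.add_mem hx hy
          have e : x + cA + (y + cA) = x + y + (cA + cA) := by abel
          rwa [e, cA_add, add_zero] at this
      | neg x _ hx =>
        rcases hx with hx | hx
        · left; exact Ag.neg_mem hx
        · right
          have := Ag.neg_mem hx
          rwa [neg_add, neg_cA] at this
    have h2v : v + v ∈ Ag := by
      rcases hall v with h | h
      · exact Ag.add_mem h h
      · have := Ag.add_mem h h
        have e : v + cA + (v + cA) = v + v + (cA + cA) := by abel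
        rwa [e, cA_add, add_zero] at this
    have hvAg : v ∈ Ag := Cells.mem_of_two hN hNv h2v
    exact (memSt a v).2 ⟨hv, fun u _ => hvAg _⟩
  · push Not at hcase
    obtain ⟨d, hd⟩ := hcase
    -- both values are used
    have hdiff : ∀ e : Bool, ∀ n ∈ S.L, ∀ n' ∈ S.L, S.f0 (d + n) = e → S.f0 (d + n') = e →
        n - n' ∈ St a := by
      intro e n hn n' hn' h1 h2
      obtain ⟨a1, n1, hn1, hne1, u1, hu1, hl1⟩ := hd e
      obtain ⟨e', he'⟩ := htrans a1 d
      have hee : e' ≠ e := by
        rintro rfl
        exact hl1 (he' n1 hn1 hne1 u1 hu1)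
      have h3 := he' n hn (by rw [h1]; exact Ne.symm hee)
      have h4 := he' n' hn' (by rw [h2]; exact Ne.symm hee)
      rw [hSt a (a1 + d)]
      refine (memSt _ _).2 ⟨S.L.sub_mem hn hn', fun u hu => ?_⟩
      have h5 := h3 (u - n') (S.L.sub_mem hu hn')
      have h6 := h4 (u - n') (S.L.sub_mem hu hn')
      have e1 : a1 + d + n + (u - n') = a1 + d + u + (n - n') := by abel
      have e2 : a1 + d + n' + (u - n') = a1 + d + u := by abel
      rw [e1] at h5
      rw [e2] at h6
      rw [h5, h6]
    have h2v : v + v ∈ St a := by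
      have hv2 := S.L.add_mem hv hv
      by_cases h1 : S.f0 (d + v) = S.f0 (d + 0)
      · have := hdiff _ v hv 0 S.L.zero_mem h1 rfl
        rw [sub_zero] at this
        exact (St a).add_mem this this
      · by_cases h2 : S.f0 (d + (v + v)) = S.f0 (d + 0)
        · have := hdiff _ (v + v) hv2 0 S.L.zero_mem h2 rfl
          rwa [sub_zero] at this
        · have h3 : S.f0 (d + (v + v)) = S.f0 (d + v) := bool_tri h2 h1
          have := hdiff _ (v + v) hv2 v hv h3 rfl
          rw [add_sub_cancel_right] at this
          exact (St a).add_mem this this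
    exact Cells.mem_of_two hN hNv h2v

/-- Elements of odd order of `L` preserve the cuts of all conjugate structures. -/
theorem odd_all {D : Cells S.f S.L} {v : AA P} (hv : v ∈ S.L) {N : ℕ} (hN : Odd N)
    (hNv : N • v = 0) (x : Dic P) : D.h ⟨x.a + v, x.i⟩ = D.h x := by
  have hLfin : Finite S.L := S.finite_L
  obtain ⟨a, i⟩ := x
  by_cases hr : S.cells.split D ⟨a, i⟩
  · by_cases hc : D.split S.cells ⟨a, i⟩
    · -- fully split
      have hFS : ∀ b, Cells.FS S.cells D ⟨b, i⟩ := by
        intro b
        have := S.D_univ (U := {b | Cells.FS S.cells D ⟨b, i⟩}) ⟨a, hr, hc⟩ (by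
          intro x hx d hd
          by_contra hnot
          have h1 := Cells.FS.const S.symm rfl hx (z := ⟨x + d, i⟩) rfl hnot ⟨cA, S.cA_mem_L⟩
          rw [cells_act, f_same, f_same] at h1
          apply hd
          have e1 : x + d + cA - x = d + cA := by abel
          have e2 : x + d - x = d := by abel
          change S.f0 (x + d + cA - x) = _ at h1
          rw [e1, e2] at h1
          exact h1.symm) b
        exact this
      exact S.fs_odd i hFS hv hN hNv a
    · have := Cells.odd_not_fs (C := D) (D := S.cells) S.symm rfl hc (s := ⟨v, hv⟩) hN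
        (Subtype.ext (by simpa using hNv))
      exact this
  · by_contra hne
    exact hr ⟨⟨v, hv⟩, hne⟩

/-- The periods of the cross colouring are trivial. -/
theorem L_trivial : ∀ u ∈ S.L, u = 0 ∨ u = cA := by
  -- no elements of odd order
  have hodd : ∀ v ∈ S.L, ∀ N : ℕ, Odd N → N • v = 0 → v = 0 := by
    intro v hv N hN hNv
    let r : Setoid (Dic P) :=
      { r := fun x y => ∀ g ∈ Aut S.f, (g x).i = (g y).i
        iseqv :=
          { refl := fun x g _ => rfl
            symm := fun h g hg => (h g hg).symm
            trans := fun h1 h2 g hg => (h1 g hg).trans (h2 g hg) } }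
    have hr := S.prim r (by
      intro g hg x y hxy k hk
      have := hxy (k * g) (mul_mem hk hg)
      simpa using this)
    rcases hr with hr | hr
    · have : r ⟨0, false⟩ ⟨0 + v, false⟩ := by
        intro g hg
        have h1 := S.odd_all (D := S.cells.conj g⁻¹ (fun x y => (inv_mem hg) x y)) hv hN hNv
          ⟨0, false⟩
        change S.cells.h (g ⟨0 + v, false⟩) = S.cells.h (g ⟨0, false⟩) at h1
        exact h1.symm
      rw [hr] at this
      have h2 := congrArg Dic.a (show (⟨0, false⟩ : Dic P) = ⟨0 + v, false⟩ from this)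
      rw [zero_add] at h2
      exact h2.symm
    · exfalso
      have : r ⟨0, false⟩ ⟨0, true⟩ := by rw [hr]; trivial
      have h1 := this 1 (one_mem _)
      exact Bool.noConfusion h1
  intro u hu
  obtain ⟨n, hn, hnu⟩ := Pruf.tors u.1
  have h1 : n • (u + u) = 0 := by
    refine Prod.ext ?_ ?_
    · simp only [Prod.smul_fst, Prod.fst_add, Prod.fst_zero, nsmul_add, hnu, add_zero]
    · have : u.2 + u.2 = 0 := by
        generalize u.2 = z; revert z; decide
      simp only [Prod.smul_snd, Prod.snd_add, Prod.snd_zero, this, nsmul_zero]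
  have h2 := hodd (u + u) (S.L.add_mem hu hu) n hn h1
  have h3 : u.1 = 0 := by
    have h4 : u.1 + u.1 = 0 := by
      have := congrArg Prod.fst h2
      simpa using this
    have h5 : u.1 ∈ (⊥ : AddSubgroup P) :=
      Cells.mem_of_two hn hnu (by rw [h4]; exact AddSubgroup.zero_mem _)
    simpa using h5
  obtain ⟨p, e⟩ := u
  change p = 0 at h3
  subst h3
  have hz : ∀ z : ZMod 2, z = 0 ∨ z = 1 := by decide
  rcases hz e with rfl | rfl
  · left; rfl
  · right; rfl

end Sit

end Pool.Agent.BG
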